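import Mathlib
import Pool.Agent.Lib_MP_86f994_an.Defs
import Pool.Agent.Lib_MP_86f994_an.Final

open Pool.Agent.MP86f994

namespace Pool.Agent.Results.MP_86f994_an.GenInvPreservers

/-- **Positive answer to Q1.** Let `H` be a complex Hilbert space with a countably infinite
orthonormal basis `b` and let `φ : B(H) → B(H)` be a linear map (no continuity assumed) that
preserves generalized invertibility in both directions and is surjective up to finite rank
operators. Then there are Fredholm operators `A`, `B` and a linear map `χ` with finite rank values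
such that `φ T = A T B + χ T` for all `T`, or `φ T = A Tᵗʳ B + χ T` for all `T`, where `Tᵗʳ` is the
transpose with respect to `b`. -/
theorem result {H : Type*} [NormedAddCommGroup H] [InnerProductSpace ℂ H] [CompleteSpace H]
    (b : HilbertBasis ℕ ℂ H) (φ : (H →L[ℂ] H) →ₗ[ℂ] (H →L[ℂ] H))
    (hφ : PreservesGenInvertible φ) (hsurj : SurjectiveUpToFiniteRank φ) :
    ∃ tr : (H →L[ℂ] H) → (H →L[ℂ] H),
      (∀ (T : H →L[ℂ] H) (i j : ℕ), inner ℂ (b j) (tr T (b i)) = inner ℂ (b i) (T (b j))) ∧
      ∃ (A B : H →L[ℂ] H) (χ : (H →L[ℂ] H) →ₗ[ℂ] (H →L[ℂ] H)),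
        IsFredholm A ∧ IsFredholm B ∧ (∀ T, FiniteRank (χ T)) ∧
        ((∀ T, φ T = A * T * B + χ T) ∨ (∀ T, φ T = A * tr T * B + χ T)) :=
  ⟨tr b, fun T i j => tr_entries b T i j, main_theorem b φ hφ hsurj⟩

end Pool.Agent.Results.MP_86f994_an.GenInvPreservers
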